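import Pool.Agent.P8H71.SK.Stm2

/-!
# Project SK (helper71), package SUB
-/

set_option autoImplicit false

open MeasureTheory Set Filter Topology
open scoped ENNReal symmDiff

namespace Pool.Agent.P8H38.SK

open Pool.Agent.P8H71.SK

theorem sub : S_SUB := by
  intro Y _ ν _ f hfm hf01 hfi B c hc hBm hB hBc Z hZ
  have hanti : ∀ k, Antitone fun C => B C k := fun k => antitone_nat_of_succ_le fun C => hB C k
  obtain ⟨κ, hκ, hκP⟩ := Filter.extraction_forall_of_frequently
    (P := fun j k => ∫ y, f k y ∂ν < (1 / 2 : ℝ) ^ j ∧ c ≤ (ν (B j k)).toReal) (fun j => by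
      have h1 : ∀ᶠ k in atTop, ∫ y, f k y ∂ν < (1 / 2 : ℝ) ^ j :=
        hfi.eventually_lt_const (by positivity)
      exact h1.and_frequently (hBc j))
  have hae : ∀ᵐ y ∂ν, Tendsto (fun j => f (κ j) y) atTop (𝓝 0) := by
    have h1 : ∫⁻ y, ∑' j, ENNReal.ofReal (f (κ j) y) ∂ν ≠ ∞ := by
      rw [lintegral_tsum (fun j => ((hfm (κ j)).ennreal_ofReal).aemeasurable)]
      have h2 : ∀ j, ∫⁻ y, ENNReal.ofReal (f (κ j) y) ∂ν ≤ ENNReal.ofReal ((1 / 2 : ℝ) ^ j) := by
        intro j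
        rw [← ofReal_integral_eq_lintegral_ofReal]
        · exact ENNReal.ofReal_le_ofReal (hκP j).1.le
        · exact Integrable.of_bound (hfm _).aestronglyMeasurable 1 (ae_of_all _ fun y => by
            rw [Real.norm_eq_abs, abs_of_nonneg (hf01 _ y).1]
            exact (hf01 _ y).2)
        · exact ae_of_all _ fun y => (hf01 _ y).1
      refine ne_top_of_le_ne_top ?_ (ENNReal.tsum_le_tsum h2)
      rw [← ENNReal.ofReal_tsum_of_nonneg (fun j => by positivity) summable_geometric_two]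
      exact ENNReal.ofReal_ne_top
    have h3 : Measurable fun y => ∑' j, ENNReal.ofReal (f (κ j) y) :=
      Measurable.ennreal_tsum fun j => (hfm (κ j)).ennreal_ofReal
    filter_upwards [ae_lt_top h3 h1] with y hy
    have h4 := ENNReal.tendsto_atTop_zero_of_tsum_ne_top hy.ne
    have h5 := (ENNReal.tendsto_toReal ENNReal.zero_ne_top).comp h4
    rw [ENNReal.toReal_zero] at h5
    refine h5.congr fun j => ?_
    exact ENNReal.toReal_ofReal (hf01 _ y).1
  let U : ℕ → Set Y := fun N => ⋃ j ∈ Set.Ici N, B j (κ j)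
  have hU : Antitone U := fun a b hab => biUnion_subset_biUnion_left (Ici_subset_Ici.2 hab)
  have hUm : ∀ N, MeasurableSet (U N) := fun N =>
    MeasurableSet.biUnion (to_countable _) fun j _ => hBm j (κ j)
  have hlim := tendsto_measure_iInter_atTop (μ := ν) (s := U)
    (fun N => (hUm N).nullMeasurableSet) hU ⟨0, measure_ne_top _ _⟩
  have hge : ENNReal.ofReal c ≤ ν (⋂ N, U N) := by
    refine ge_of_tendsto' hlim fun N => ?_
    have h1 : B N (κ N) ⊆ U N :=
      subset_biUnion_of_mem (u := fun j => B j (κ j)) (Set.mem_Ici.2 le_rfl)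
    calc ENNReal.ofReal c ≤ ENNReal.ofReal (ν (B N (κ N))).toReal :=
          ENNReal.ofReal_le_ofReal (hκP N).2
      _ = ν (B N (κ N)) := ENNReal.ofReal_toReal (measure_ne_top _ _)
      _ ≤ ν (U N) := measure_mono h1
  have hex : ∃ y ∈ ⋂ N, U N, y ∉ Z ∧ Tendsto (fun j => f (κ j) y) atTop (𝓝 0) := by
    by_contra hcon
    have h1 : (⋂ N, U N) ⊆ Z ∪ {y | ¬ Tendsto (fun j => f (κ j) y) atTop (𝓝 0)} := by
      intro y hy
      by_cases hz : y ∈ Z
      · exact Or.inl hz
      · exact Or.inr fun ht => hcon ⟨y, hy, hz, ht⟩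
    have h2 : ν (Z ∪ {y | ¬ Tendsto (fun j => f (κ j) y) atTop (𝓝 0)}) = 0 :=
      measure_union_null hZ hae
    have h3 : ν (⋂ N, U N) = 0 := measure_mono_null h1 h2
    rw [h3] at hge
    exact absurd hge (not_le.2 (ENNReal.ofReal_pos.2 hc))
  obtain ⟨y, hyD, hyZ, hyt⟩ := hex
  have hfr : ∃ᶠ j in atTop, y ∈ B j (κ j) := by
    rw [frequently_atTop]
    intro N
    have h1 := mem_iInter.1 hyD N
    obtain ⟨j, hj, hyj⟩ := mem_iUnion₂.1 h1
    exact ⟨j, hj, hyj⟩
  obtain ⟨φ, hφ, hφB⟩ := extraction_of_frequently_atTop hfr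
  refine ⟨y, hyZ, κ ∘ φ, (hκ.comp hφ).tendsto_atTop, hyt.comp hφ.tendsto_atTop, fun C => ?_⟩
  filter_upwards [eventually_ge_atTop C] with j hj
  exact hanti _ (hj.trans (hφ.id_le j)) (hφB j)

end Pool.Agent.P8H38.SK
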